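import Mathlib
import Pool.Agent.H759R2.Kad.Props

open scoped ComplexOrder InnerProductSpace ComplexConjugate
open Finset

noncomputable section

namespace H759R2.Kad

universe u v

namespace Tele

section general

variable {B : Type u} [CStarAlgebra B]
variable {K : Type v} [NormedAddCommGroup K] [InnerProductSpace ℂ K] [CompleteSpace K]
variable {p : B →⋆ₐ[ℂ] (K →L[ℂ] K)} {d : B →ₗ[ℂ] (K →L[ℂ] K)}

theorem inner_unitary {U : B} (hU : U ∈ unitary B) (y z : K) :
    ⟪p U y, p U z⟫_ℂ = ⟪y, z⟫_ℂ := by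
  have h1 : ⟪p U y, p U z⟫_ℂ = ⟪y, (star (p U)) (p U z)⟫_ℂ := by
    rw [ContinuousLinearMap.star_eq_adjoint, ContinuousLinearMap.adjoint_inner_right]
  rw [h1, ← map_star, ← mul_apply_eq_comp, ← map_mul, (Unitary.mem_iff.mp hU).1, map_one]
  rfl

theorem norm_unitary {U : B} (hU : U ∈ unitary B) (y : K) : ‖p U y‖ = ‖y‖ := by
  have h := inner_unitary (p := p) hU y y
  rw [inner_self_eq_norm_sq_to_K, inner_self_eq_norm_sq_to_K] at h
  have h2 : ‖p U y‖ ^ 2 = ‖y‖ ^ 2 := by exact_mod_cast h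
  exact (sq_eq_sq₀ (norm_nonneg _) (norm_nonneg _)).mp h2

theorem leib_apply (hd : IsDer p d) (a b : B) (z : K) :
    d (a * b) z = p a (d b z) + d a (p b z) := by
  rw [hd.leib]
  rfl

/-- forward increment -/
theorem fwd (hd : IsDer p d) {x h : B} (hx : x ∈ unitary B) (hh : h ∈ unitary B) (h0 : d h = 0)
    (θ : K) (k : ℕ) :
    ⟪p ((x * h) ^ (k + 1)) θ, d ((x * h) ^ (k + 1)) θ⟫_ℂ =
      ⟪p ((x * h) ^ k) θ, d ((x * h) ^ k) θ⟫_ℂ +
        ⟪p (h * (x * h) ^ k) θ, (star (p x) * d x) (p (h * (x * h) ^ k) θ)⟫_ℂ := by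
  have hU : x * h ∈ unitary B := mul_mem hx hh
  rw [pow_succ', leib_apply hd, inner_add_right]
  congr 1
  · rw [map_mul, mul_apply_eq_comp, inner_unitary hU]
  · rw [leib_apply hd, h0]
    simp only [zero_apply, map_zero, zero_add]
    rw [mul_apply_eq_comp, ContinuousLinearMap.star_eq_adjoint,
      ContinuousLinearMap.adjoint_inner_right, mul_assoc, map_mul, mul_apply_eq_comp, map_mul,
      mul_apply_eq_comp]

theorem fwd_sum (hd : IsDer p d) (hone : d 1 = 0) {x h : B} (hx : x ∈ unitary B)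
    (hh : h ∈ unitary B) (h0 : d h = 0) (θ : K) (k : ℕ) :
    ⟪p ((x * h) ^ k) θ, d ((x * h) ^ k) θ⟫_ℂ =
      ∑ j ∈ range k, ⟪p (h * (x * h) ^ j) θ, (star (p x) * d x) (p (h * (x * h) ^ j) θ)⟫_ℂ := by
  induction k with
  | zero => simp [hone]
  | succ k ih => rw [fwd hd hx hh h0, ih, sum_range_succ]

/-- backward increment -/
theorem bwd (hd : IsDer p d) {x h : B} (hx : x ∈ unitary B) (hh : h ∈ unitary B) (h0 : d h = 0)
    (θ : K) (k : ℕ) :
    ⟪θ, d ((x * h) ^ (k + 1)) (p (star (x * h) ^ (k + 1)) θ)⟫_ℂ =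
      ⟪θ, d ((x * h) ^ k) (p (star (x * h) ^ k) θ)⟫_ℂ +
        ⟪p (star (x * h) ^ k) θ, (d x * star (p x)) (p (star (x * h) ^ k) θ)⟫_ℂ := by
  have hU : x * h ∈ unitary B := mul_mem hx hh
  have e1 : p (star (x * h) ^ (k + 1)) θ = p (star (x * h)) (p (star (x * h) ^ k) θ) := by
    rw [pow_succ', map_mul, mul_apply_eq_comp]
  rw [e1]
  set y := p (star (x * h) ^ k) θ with hy
  rw [pow_succ, leib_apply hd, inner_add_right, add_comm]
  congr 1
  · rw [← mul_apply_eq_comp (p (x * h)), ← map_mul, (Unitary.mem_iff.mp hU).2, map_one]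
    rfl
  · have e2 : ∀ z : K, ⟪θ, p ((x * h) ^ k) z⟫_ℂ = ⟪y, z⟫_ℂ := by
      intro z
      rw [hy, ← star_pow, map_star, ContinuousLinearMap.star_eq_adjoint,
        ContinuousLinearMap.adjoint_inner_left]
    rw [e2]
    congr 1
    rw [leib_apply hd, h0]
    simp only [zero_apply, map_zero, zero_add]
    rw [← mul_apply_eq_comp (p h), ← map_mul, star_mul, ← mul_assoc,
      (Unitary.mem_iff.mp hh).2, one_mul, map_star]
    rfl

theorem bwd_sum (hd : IsDer p d) (hone : d 1 = 0) {x h : B} (hx : x ∈ unitary B)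
    (hh : h ∈ unitary B) (h0 : d h = 0) (θ : K) (k : ℕ) :
    ⟪θ, d ((x * h) ^ k) (p (star (x * h) ^ k) θ)⟫_ℂ =
      ∑ j ∈ range k, ⟪p (star (x * h) ^ j) θ, (d x * star (p x)) (p (star (x * h) ^ j) θ)⟫_ℂ := by
  induction k with
  | zero => simp [hone]
  | succ k ih => rw [bwd hd hx hh h0, ih, sum_range_succ]

end general

section phases

variable {A : Type u} [CStarAlgebra A] [PartialOrder A] [StarOrderedRing A]
variable {H : Type v} [NormedAddCommGroup H] [InnerProductSpace ℂ H] [CompleteSpace H]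
variable {ι : Type} [Fintype ι] [DecidableEq ι] {R : ℕ} [NeZero R]
variable {π : A →⋆ₐ[ℂ] (H →L[ℂ] H)} {D : A →ₗ[ℂ] (H →L[ℂ] H)}

omit [PartialOrder A] [StarOrderedRing A] in
theorem ph_apply (ω : ι → ZMod R) (i j : ι) :
    ph A ω i j = if i = j then chi ω i • (1 : A) else 0 := by
  change Matrix.diagonal (fun c => chi ω c • (1 : A)) i j = _
  rw [Matrix.diagonal_apply]

theorem chi_neg (ω : ι → ZMod R) (c : ι) : chi (-ω) c = star (chi ω c) := by
  unfold chi
  rw [Pi.neg_apply, AddChar.map_neg_eq_conj]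
  rfl

theorem chi_mul_star (ω : ι → ZMod R) (c : ι) : chi ω c * star (chi ω c) = 1 := by
  rw [← chi_neg]
  unfold chi
  rw [Pi.neg_apply, ← AddChar.map_add_eq_mul]
  simp

omit [PartialOrder A] [StarOrderedRing A] in
theorem star_ph (ω : ι → ZMod R) : star (ph A ω) = ph A (-ω) := by
  ext i j
  rw [CStarMatrix.star_apply, ph_apply, ph_apply]
  by_cases h : i = j
  · subst h
    simp [chi_neg]
  · simp [h, Ne.symm h]

omit [PartialOrder A] [StarOrderedRing A] in
theorem ph_mul_star (ω : ι → ZMod R) : ph A ω * star (ph A ω) = 1 := by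
  ext i j
  rw [CStarMatrix.mul_apply, star_ph, Finset.sum_eq_single i, ph_apply, ph_apply, chi_neg,
    CStarMatrix.one_apply]
  · by_cases h : i = j
    · subst h
      rw [if_pos rfl, if_pos rfl, if_pos rfl, smul_mul_smul_comm, chi_mul_star, one_smul, mul_one]
    · simp [h]
  · intro k _ hk
    rw [ph_apply, if_neg (Ne.symm hk), zero_mul]
  · simp

omit [PartialOrder A] [StarOrderedRing A] in
theorem ph_unitary (ω : ι → ZMod R) : ph A ω ∈ unitary (CStarMatrix ι ι A) := by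
  rw [Unitary.mem_iff]
  refine ⟨?_, ph_mul_star ω⟩
  have h := ph_mul_star (A := A) (-ω)
  rw [star_ph, neg_neg] at h
  rw [star_ph]
  exact h

omit [PartialOrder A] [StarOrderedRing A] in
theorem amp_ph (hone : D 1 = 0) (ω : ι → ZMod R) : amp D ι (ph A ω) = 0 := by
  ext v i
  rw [amp_apply]
  simp only [zero_apply, PiLp.zero_apply]
  refine Finset.sum_eq_zero fun j _ => ?_
  rw [ph_apply]
  by_cases h : i = j
  · simp [h, hone]
  · simp [h]

theorem ampHom_ph (ω : ι → ZMod R) (z : HH ι H) :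
    ampHom π ι (ph A ω) z = ∑ c, chi ω c • cproj c z := by
  ext i
  rw [ampHom_apply, amp_apply, Finset.sum_eq_single i]
  · simp [ph_apply, cproj_apply]
  · intro j _ hj
    rw [ph_apply, if_neg (Ne.symm hj)]
    simp
  · simp

theorem wv_fwd (x : CStarMatrix ι ι A) (θ : HH ι H) (ω : ι → ZMod R) (k : ℕ) :
    ampHom π ι (ph A ω * (x * ph A ω) ^ k) θ =
      wv cproj (ampHom π ι x).toLinearMap θ ω k := by
  induction k with
  | zero =>
    rw [pow_zero, mul_one, ampHom_ph]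
    rfl
  | succ k ih =>
    rw [pow_succ', mul_assoc (x), map_mul (ampHom π ι) (ph A ω), mul_apply_eq_comp,
      ampHom_ph, map_mul (ampHom π ι) x, mul_apply_eq_comp, ih]
    rfl

theorem wv_bwd (x : CStarMatrix ι ι A) (θ : HH ι H) (ω : ι → ZMod R) (k : ℕ) :
    ampHom π ι (star (x * ph A ω) ^ (k + 1)) θ =
      wv cproj (ampHom π ι (star x)).toLinearMap (ampHom π ι (star x) θ) (-ω) k := by
  induction k with
  | zero =>
    rw [zero_add, pow_one, star_mul, star_ph, map_mul, mul_apply_eq_comp, ampHom_ph]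
    rfl
  | succ k ih =>
    rw [pow_succ', map_mul, mul_apply_eq_comp, ih, star_mul, star_ph, map_mul,
      mul_apply_eq_comp, ampHom_ph]
    rfl

end phases

theorem double_bound (Q : ℕ) (b G : ℝ) (hb : 0 ≤ b) (hG : 0 ≤ G) (t : ℕ → ℂ)
    (ht : ∀ j, j < Q → ‖t j‖ ≤ b * (j + 1) * G) :
    ‖∑ k ∈ range Q, ∑ j ∈ range k, t j‖ ≤ G * (b * Q ^ 3) := by
  calc ‖∑ k ∈ range Q, ∑ j ∈ range k, t j‖
      ≤ ∑ k ∈ range Q, ∑ j ∈ range k, ‖t j‖ :=
        (norm_sum_le _ _).trans (Finset.sum_le_sum fun k _ => norm_sum_le _ _)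
    _ ≤ ∑ k ∈ range Q, ∑ j ∈ range Q, b * Q * G := by
        refine Finset.sum_le_sum fun k hk => ?_
        have hk' : k < Q := Finset.mem_range.mp hk
        calc ∑ j ∈ range k, ‖t j‖ ≤ ∑ j ∈ range k, b * Q * G := by
              refine Finset.sum_le_sum fun j hj => ?_
              have hj' : j < k := Finset.mem_range.mp hj
              refine (ht j (by omega)).trans ?_
              have h1 : (j : ℝ) + 1 ≤ Q := by exact_mod_cast (by omega : j + 1 ≤ Q)
              exact mul_le_mul_of_nonneg_right (mul_le_mul_of_nonneg_left h1 hb) hG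
          _ ≤ ∑ j ∈ range Q, b * Q * G := by
              refine Finset.sum_le_sum_of_subset_of_nonneg ?_ fun _ _ _ => by positivity
              exact Finset.range_subset_range.mpr hk'.le
    _ = G * (b * Q ^ 3) := by
        simp only [Finset.sum_const, Finset.card_range, nsmul_eq_mul]
        ring

end Tele

open Tele in
theorem prove_tele (h : St_phop.{v}) : St_tele.{u, v} := by
  intro A _ _ _ H _ _ _ π D hD ι _ _ x hx b hb hent R _ Q hQ hQR θ hθ
  have hd : IsDer (ampHom π ι) (amp D ι) := hD.amp ι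
  have hone : amp D ι (1 : CStarMatrix ι ι A) = 0 := hd.one
  have hD1 : D 1 = 0 := hD.one
  set p := ampHom π ι with hp
  set d := amp D ι with hddef
  set S := star (p x) * d x with hS
  set L := d x * star (p x) with hL
  set w : ℕ → (ι → ZMod R) → HH ι H :=
    fun j ω => wv cproj (p x).toLinearMap θ ω j with hw
  set z : ℕ → (ι → ZMod R) → HH ι H :=
    fun j ω => wv cproj (p (star x)).toLinearMap (p (star x) θ) ω j with hz
  have hw1 : ∀ j ω, ‖w j ω‖ = 1 := by
    intro j ω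
    rw [hw]
    simp only
    rw [hp, ← wv_fwd (π := π) x θ ω j, norm_unitary, hθ]
    exact mul_mem (ph_unitary ω) (pow_mem (mul_mem hx (ph_unitary ω)) j)
  have hz1 : ∀ j ω, ‖z j ω‖ = 1 := by
    intro j ω
    have h1 := wv_bwd (π := π) x θ (-ω) j
    rw [neg_neg] at h1
    rw [hz]
    simp only
    rw [hp, ← h1, norm_unitary, hθ]
    exact pow_mem (Unitary.star_mem (mul_mem hx (ph_unitary (-ω)))) _
  -- expansion for one omega
  have hexp : ∀ ω : ι → ZMod R, (∑ k ∈ range Q,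
        ⟪p ((x * ph A ω) ^ k) θ, d ((x * ph A ω) ^ k) θ⟫_ℂ) +
      ∑ q ∈ range Q, ⟪θ, d ((x * ph A ω) ^ (q + 1)) (p (star (x * ph A ω) ^ (q + 1)) θ)⟫_ℂ =
      (∑ k ∈ range Q, ∑ j ∈ range k, ⟪w j ω, S (w j ω)⟫_ℂ) +
        ((∑ k ∈ range Q, ∑ j ∈ range k, ⟪z j (-ω), L (z j (-ω))⟫_ℂ) + Q * ⟪θ, L θ⟫_ℂ) := by
    intro ω
    have h0 : d (ph A ω) = 0 := amp_ph hD1 ω
    congr 1
    · refine Finset.sum_congr rfl fun k _ => ?_
      rw [fwd_sum hd hone hx (ph_unitary ω) h0 θ k]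
      refine Finset.sum_congr rfl fun j _ => ?_
      rw [hp, wv_fwd (π := π) x θ ω j]
    · have h2 : ∀ q ∈ range Q, ⟪θ, d ((x * ph A ω) ^ (q + 1))
          (p (star (x * ph A ω) ^ (q + 1)) θ)⟫_ℂ =
          (∑ j ∈ range q, ⟪z j (-ω), L (z j (-ω))⟫_ℂ) + ⟪θ, L θ⟫_ℂ := by
        intro q _
        rw [bwd_sum hd hone hx (ph_unitary ω) h0 θ (q + 1), Finset.sum_range_succ']
        congr 1
        · refine Finset.sum_congr rfl fun j _ => ?_
          rw [hp, wv_bwd (π := π) x θ ω j]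
        · rw [pow_zero, map_one]
          rfl
      rw [Finset.sum_congr rfl h2, Finset.sum_add_distrib]
      simp
  have hG : (0 : ℝ) ≤ (Fintype.card (ι → ZMod R) : ℝ) := by positivity
  have e1 : ∀ j, j < Q → ‖∑ ω, ⟪w j ω, S (w j ω)⟫_ℂ‖ ≤
      b * (j + 1) * (Fintype.card (ι → ZMod R) : ℝ) := by
    intro j hj
    have h3 := h ι R H (p x) S b hb (fun c c' u => (hent c c' u).1) θ j (by omega)
    refine h3.trans (le_of_eq ?_)
    congr 1
    have : ∀ ω : ι → ZMod R, ‖wv cproj (p x).toLinearMap θ ω j‖ ^ 2 = 1 := by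
      intro ω
      have := hw1 j ω
      rw [hw] at this
      simp only at this
      rw [this, one_pow]
    simp only [this]
    simp
  have e2 : ∀ j, j < Q → ‖∑ ω, ⟪z j (-ω), L (z j (-ω))⟫_ℂ‖ ≤
      b * (j + 1) * (Fintype.card (ι → ZMod R) : ℝ) := by
    intro j hj
    have h3 := h ι R H (p (star x)) L b hb (fun c c' u => (hent c c' u).2) (p (star x) θ) j
      (by omega)
    have h4 : ∑ ω : ι → ZMod R, ⟪z j (-ω), L (z j (-ω))⟫_ℂ = ∑ ω, ⟪z j ω, L (z j ω)⟫_ℂ :=
      Equiv.sum_comp (Equiv.neg (ι → ZMod R)) fun ω => ⟪z j ω, L (z j ω)⟫_ℂ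
    rw [h4]
    refine h3.trans (le_of_eq ?_)
    congr 1
    have : ∀ ω : ι → ZMod R, ‖wv cproj (p (star x)).toLinearMap (p (star x) θ) ω j‖ ^ 2 = 1 := by
      intro ω
      have := hz1 j ω
      rw [hz] at this
      simp only at this
      rw [this, one_pow]
    simp only [this]
    simp
  have key : (∑ ω : ι → ZMod R, ((∑ k ∈ range Q,
        ⟪p ((x * ph A ω) ^ k) θ, d ((x * ph A ω) ^ k) θ⟫_ℂ) +
      ∑ q ∈ range Q, ⟪θ, d ((x * ph A ω) ^ (q + 1)) (p (star (x * ph A ω) ^ (q + 1)) θ)⟫_ℂ)) -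
      (Fintype.card (ι → ZMod R) : ℂ) * (Q * ⟪θ, L θ⟫_ℂ) =
      (∑ k ∈ range Q, ∑ j ∈ range k, ∑ ω, ⟪w j ω, S (w j ω)⟫_ℂ) +
        ∑ k ∈ range Q, ∑ j ∈ range k, ∑ ω, ⟪z j (-ω), L (z j (-ω))⟫_ℂ := by
    rw [Finset.sum_congr rfl fun ω _ => hexp ω, Finset.sum_add_distrib, Finset.sum_add_distrib,
      Finset.sum_const, Finset.card_univ, nsmul_eq_mul, ← add_assoc, add_sub_cancel_right]
    congr 1
    · rw [Finset.sum_comm]
      refine Finset.sum_congr rfl fun k _ => ?_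
      rw [Finset.sum_comm]
    · rw [Finset.sum_comm]
      refine Finset.sum_congr rfl fun k _ => ?_
      rw [Finset.sum_comm]
  rw [key]
  refine (norm_add_le _ _).trans ?_
  have b1 := double_bound Q b _ hb hG _ e1
  have b2 := double_bound Q b _ hb hG _ e2
  refine (add_le_add b1 b2).trans (le_of_eq ?_)
  ring

end H759R2.Kad
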